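import Pool.Agent.MNT.StmtsT

/-!
# Squad MNT, row LGN: legs of clusters with `2 g` roots
-/

set_option autoImplicit false

namespace Pool.Agent.MNT.H52

open Pool.Agent.MNT

/-- the primitive -/
noncomputable def Gf (L t : ℝ) : ℝ := t * (2 * t / L - 3 / 2) ^ 2

theorem Gf_nonneg {L t : ℝ} (ht : 0 ≤ t) : 0 ≤ Gf L t := mul_nonneg ht (sq_nonneg _)

theorem gf_id (l s r : ℝ) (hL : s + l + r ≠ 0) :
    l * (3 * (s - r) ^ 2 + l ^ 2) / (s + l + r) ^ 2 - 3 / 4 * l =
      Gf (s + l + r) (r + l) - Gf (s + l + r) r := by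
  unfold Gf
  field_simp
  ring

open scoped Classical in
theorem lgn : LgnStmt := by
  intro g hg V _ _ _ T G a b l s r hl hLab hRes
  set A : Finset V := Finset.univ.filter fun c => c ≠ ⊤ ∧ a c = 2 * g with hA
  have memA : ∀ c, c ∈ A ↔ c ≠ ⊤ ∧ a c = 2 * g := fun c => by
    rw [hA, Finset.mem_filter]
    exact ⟨fun h => h.2, fun h => ⟨Finset.mem_univ _, h⟩⟩
  have hs : ∀ v, 0 ≤ s v := by
    intro v
    by_cases h : G v
    · rw [hRes.s_grd v h]
    · exact (hRes.s_pos v h).le
  have hr : ∀ c, c ≠ ⊤ → 0 ≤ r c := by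
    intro c hc
    by_cases h : G (T.par c)
    · rw [hRes.r_grd c hc h]
    · exact (hRes.r_pos c hc h).le
  have hL : ∀ c, c ≠ ⊤ → 0 < s c + l c + r c := by
    intro c hc
    have h1 := hs c
    have h2 := hr c hc
    have h3 := hl c hc
    linarith
  set F : V → ℝ := fun c => Gf (s c + l c + r c) (r c + l c) with hF
  have hFpos : ∀ c, c ≠ ⊤ → 0 ≤ F c := fun c hc => Gf_nonneg (by
    have h2 := hr c hc
    have h3 := hl c hc
    linarith)
  have memK : ∀ v c, c ∈ T.kids v ↔ c ≠ ⊤ ∧ T.par c = v := fun v c => by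
    unfold Tree.kids
    rw [Finset.mem_filter]
    exact ⟨fun h => h.2, fun h => ⟨Finset.mem_univ _, h⟩⟩
  -- the parent of a cluster with `2 g` roots which is not grounded
  have key : ∀ c ∈ A, ¬ G (T.par c) → T.par c ∈ A ∧ T.kids (T.par c) = {c} ∧
      Gf (s c + l c + r c) (r c) = F (T.par c) := by
    intro c hc hG
    rw [memA] at hc
    obtain ⟨hc1, hc2⟩ := hc
    have hcK : c ∈ T.kids (T.par c) := (memK _ _).mpr ⟨hc1, rfl⟩
    have hsum := hLab.sum_eq (T.par c) hG
    have htop : T.par c ≠ ⊤ := fun h => hG (h ▸ hLab.top)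
    have h1 : a c ≤ a (T.par c) := by
      rw [← hsum]
      exact Finset.single_le_sum (f := a) (fun _ _ => Nat.zero_le _) hcK
    have h2 := hLab.a_le (T.par c)
    have h3 : a (T.par c) = 2 * g := by
      obtain ⟨k, hk⟩ := hLab.even (T.par c) hG
      omega
    have h4 : T.kids (T.par c) = {c} := by
      rw [Finset.eq_singleton_iff_unique_mem]
      refine ⟨hcK, ?_⟩
      intro d hd
      by_contra hne
      have h5 : a c + a d ≤ ∑ x ∈ T.kids (T.par c), a x := by
        rw [← Finset.sum_pair (f := a) (Ne.symm hne)]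
        apply Finset.sum_le_sum_of_subset
        intro x hx
        rw [Finset.mem_insert, Finset.mem_singleton] at hx
        rcases hx with rfl | rfl
        · exact hcK
        · exact hd
      have h6 := hLab.a_pos d
      omega
    have h5 : s (T.par c) = l c + s c := by
      have h6 := hRes.s_eq (T.par c) hG
      rw [h4, Finset.sum_singleton] at h6
      exact inv_injective h6
    have h7 : r c = l (T.par c) + r (T.par c) := by
      have h8 := hRes.r_eq c hc1 hG
      rw [h4, Finset.erase_singleton, Finset.sum_empty, add_zero] at h8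
      exact inv_injective h8
    refine ⟨(memA _).mpr ⟨htop, h3⟩, h4, ?_⟩
    simp only [hF]
    rw [h5, h7]
    congr 1 <;> ring
  -- the terms
  have hterm : ∀ c ∈ A, JJ l s r c - 3 / 4 * l c =
      F c - if G (T.par c) then 0 else F (T.par c) := by
    intro c hc
    have hc1 := ((memA c).mp hc).1
    unfold JJ
    rw [gf_id (l c) (s c) (r c) (hL c hc1).ne']
    by_cases h : G (T.par c)
    · rw [if_pos h, hRes.r_grd c hc1 h]
      simp only [hF]
      rw [hRes.r_grd c hc1 h]
      unfold Gf
      ring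
    · rw [if_neg h, (key c hc h).2.2]
  have hsum : ∑ c ∈ A, JJ l s r c - 3 / 4 * ∑ c ∈ A, l c =
      ∑ c ∈ A, F c - ∑ c ∈ A, if G (T.par c) then 0 else F (T.par c) := by
    rw [Finset.mul_sum, ← Finset.sum_sub_distrib, ← Finset.sum_sub_distrib]
    exact Finset.sum_congr rfl hterm
  have hle : ∑ c ∈ A, (if G (T.par c) then 0 else F (T.par c)) ≤ ∑ c ∈ A, F c := by
    have h1 : ∑ c ∈ A, (if G (T.par c) then 0 else F (T.par c)) =
        ∑ c ∈ A.filter (fun c => ¬ G (T.par c)), F (T.par c) := by
      rw [Finset.sum_filter (fun c => ¬ G (T.par c)) (fun c => F (T.par c))]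
      refine Finset.sum_congr rfl fun c _ => ?_
      by_cases h : G (T.par c)
      · rw [if_pos h, if_neg (not_not.mpr h)]
      · rw [if_neg h, if_pos h]
    rw [h1]
    have h2 : Set.InjOn T.par (A.filter (fun c => ¬ G (T.par c)) : Set V) := by
      intro c hc c' hc' h
      rw [Finset.mem_coe, Finset.mem_filter] at hc hc'
      have h3 := (key c hc.1 hc.2).2.1
      have h4 : c' ∈ T.kids (T.par c) := (memK _ _).mpr ⟨((memA c').mp hc'.1).1, h.symm⟩
      rw [h3, Finset.mem_singleton] at h4
      exact h4.symm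
    rw [← Finset.sum_image (f := F) (g := T.par) h2]
    apply Finset.sum_le_sum_of_subset_of_nonneg
    · intro u hu
      rw [Finset.mem_image] at hu
      obtain ⟨c, hc, rfl⟩ := hu
      rw [Finset.mem_filter] at hc
      exact (key c hc.1 hc.2).1
    · intro u hu _
      exact hFpos u ((memA u).mp hu).1
  linarith

end Pool.Agent.MNT.H52
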